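import Pool.Agent.Helper75.Torus.Goals

/-! MP_beb0a8_an, packet TORUS-LIN : rigidity of a matrix of determinant one. -/

set_option autoImplicit false

namespace Pool.Agent.Helper96.Torus

open Pool.Agent.Helper75.Torus Matrix

theorem dot3 (u v : E) : u ⬝ᵥ v = u 0 * v 0 + u 1 * v 1 + u 2 * v 2 := by
  simp [dotProduct, Fin.sum_univ_three]

theorem cofv_smul (J : E →L[ℝ] E) (c : ℝ) (κ : E) : cofv J (c • κ) = c • cofv J κ := by
  unfold cofv
  simp only [Pi.smul_apply, smul_eq_mul, smul_add, smul_smul]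

theorem cofv_neg (J : E →L[ℝ] E) (κ : E) : cofv J (-κ) = -cofv J κ := by
  have h := cofv_smul J (-1) κ
  simpa using h

theorem cofv_add (J : E →L[ℝ] E) (κ κ' : E) : cofv J (κ + κ') = cofv J κ + cofv J κ' := by
  unfold cofv
  simp only [Pi.add_apply, add_smul]
  abel

theorem cof0 (J : E →L[ℝ] E) : cofv J (ee 0) = crossProduct (J (ee 1)) (J (ee 2)) := by
  simp [cofv, ee]

theorem cof1 (J : E →L[ℝ] E) : cofv J (ee 1) = crossProduct (J (ee 2)) (J (ee 0)) := by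
  simp [cofv, ee]

theorem cof2 (J : E →L[ℝ] E) : cofv J (ee 2) = crossProduct (J (ee 0)) (J (ee 1)) := by
  simp [cofv, ee]

theorem nn_sq (v : E) : nn v ^ 2 = v ⬝ᵥ v := by
  unfold nn
  apply Real.sq_sqrt
  rw [dot3]
  nlinarith [mul_self_nonneg (v 0), mul_self_nonneg (v 1), mul_self_nonneg (v 2)]

theorem nn_nonneg (v : E) : 0 ≤ nn v := Real.sqrt_nonneg _

theorem dot_self_nonneg (v : E) : 0 ≤ v ⬝ᵥ v := by
  rw [dot3]
  nlinarith [mul_self_nonneg (v 0), mul_self_nonneg (v 1), mul_self_nonneg (v 2)]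

/-- the triple product -/
def tp (u v w : E) : ℝ := u ⬝ᵥ crossProduct v w

theorem tp_eq (u v w : E) : tp u v w = u 0 * (v 1 * w 2 - v 2 * w 1) +
    u 1 * (v 2 * w 0 - v 0 * w 2) + u 2 * (v 0 * w 1 - v 1 * w 0) := by
  unfold tp
  rw [dot3, cross_apply]
  simp

theorem tp_sq_le (u v w : E) : tp u v w ^ 2 ≤ (u ⬝ᵥ u) * ((v ⬝ᵥ v) * (w ⬝ᵥ w)) := by
  rw [tp_eq, dot3, dot3, dot3]
  generalize u 0 = a0
  generalize u 1 = a1
  generalize u 2 = a2
  generalize v 0 = b0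
  generalize v 1 = b1
  generalize v 2 = b2
  generalize w 0 = c0
  generalize w 1 = c1
  generalize w 2 = c2
  set x0 := b1 * c2 - b2 * c1 with hx0
  set x1 := b2 * c0 - b0 * c2 with hx1
  set x2 := b0 * c1 - b1 * c0 with hx2
  have h1 : (a0 * x0 + a1 * x1 + a2 * x2) ^ 2 ≤
      (a0 * a0 + a1 * a1 + a2 * a2) * (x0 * x0 + x1 * x1 + x2 * x2) := by
    nlinarith [sq_nonneg (a0 * x1 - a1 * x0), sq_nonneg (a1 * x2 - a2 * x1),
      sq_nonneg (a2 * x0 - a0 * x2)]
  have h2 : x0 * x0 + x1 * x1 + x2 * x2 ≤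
      (b0 * b0 + b1 * b1 + b2 * b2) * (c0 * c0 + c1 * c1 + c2 * c2) := by
    have e : (b0 * b0 + b1 * b1 + b2 * b2) * (c0 * c0 + c1 * c1 + c2 * c2) -
        (x0 * x0 + x1 * x1 + x2 * x2) = (b0 * c0 + b1 * c1 + b2 * c2) ^ 2 := by
      rw [hx0, hx1, hx2]
      ring
    have := sq_nonneg (b0 * c0 + b1 * c1 + b2 * c2)
    linarith
  have h3 : 0 ≤ a0 * a0 + a1 * a1 + a2 * a2 := by
    nlinarith [mul_self_nonneg a0, mul_self_nonneg a1, mul_self_nonneg a2]
  exact h1.trans (mul_le_mul_of_nonneg_left h2 h3)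

theorem tp_cof (J : E →L[ℝ] E) : tp (cofv J (ee 0)) (cofv J (ee 1)) (cofv J (ee 2)) =
    (cofv J (ee 0) ⬝ᵥ J (ee 0)) ^ 2 := by
  rw [tp_eq, dot3, cof0, cof1, cof2]
  simp only [cross_apply]
  generalize J (ee 0) = p
  generalize J (ee 1) = q
  generalize J (ee 2) = r
  simp
  ring

theorem ee_unit (i : Fin 3) : ee i ⬝ᵥ ee i = 1 := by
  simp [ee]

theorem nn_ee (i : Fin 3) : nn (ee i) = 1 := by
  unfold nn
  rw [ee_unit, Real.sqrt_one]

/-- the alternative for the three coordinate vectors -/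
theorem alt (J : E →L[ℝ] E) (hc : ∀ κ : E, cofv J (trn J κ) = κ) (κ : E)
    (h : trn J κ = κ ∨ trn J κ = -κ ∨ nn (cofv J κ) ≤ 1 / 2) :
    cofv J κ = κ ∨ cofv J κ = -κ ∨ nn (cofv J κ) ≤ 1 / 2 := by
  rcases h with h | h | h
  · left
    have h1 := hc κ
    rw [h] at h1
    exact h1
  · right; left
    have h1 := hc κ
    rw [h, cofv_neg] at h1
    exact neg_eq_iff_eq_neg.1 h1
  · right; right
    exact h

theorem thm (hG : G_COF) : G_LIN := by
  intro J hJ hd
  obtain ⟨h1, -, -, -, -, h6, -, -⟩ := hG J hJ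
  -- the coordinate vectors
  have hi : ∀ i : Fin 3, cofv J (ee i) = ee i ∨ cofv J (ee i) = -ee i ∨
      nn (cofv J (ee i)) ≤ 1 / 2 := by
    intro i
    have h2 := hd (ee i) (by fin_cases i <;> simp)
    rw [nn_ee, inv_one, one_smul] at h2
    exact alt J h6 (ee i) h2
  have hle : ∀ i : Fin 3, cofv J (ee i) ⬝ᵥ cofv J (ee i) ≤ 1 := by
    intro i
    rcases hi i with h | h | h
    · rw [h, ee_unit]
    · rw [h, neg_dotProduct_neg, ee_unit]
    · rw [← nn_sq]
      have := nn_nonneg (cofv J (ee i))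
      nlinarith
  have hq : ∀ i : Fin 3, nn (cofv J (ee i)) ≤ 1 / 2 →
      cofv J (ee i) ⬝ᵥ cofv J (ee i) ≤ 1 / 4 := by
    intro i h
    rw [← nn_sq]
    have := nn_nonneg (cofv J (ee i))
    nlinarith
  have htp : tp (cofv J (ee 0)) (cofv J (ee 1)) (cofv J (ee 2)) = 1 := by
    rw [tp_cof, h1, ee_unit, one_pow]
  have hprod : (1 : ℝ) ≤ (cofv J (ee 0) ⬝ᵥ cofv J (ee 0)) *
      ((cofv J (ee 1) ⬝ᵥ cofv J (ee 1)) * (cofv J (ee 2) ⬝ᵥ cofv J (ee 2))) := by
    have h2 := tp_sq_le (cofv J (ee 0)) (cofv J (ee 1)) (cofv J (ee 2))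
    rw [htp, one_pow] at h2
    exact h2
  have hbig : ∀ a b c : ℝ, 0 ≤ a → 0 ≤ b → 0 ≤ c → a ≤ 1 → b ≤ 1 → c ≤ 1 →
      1 ≤ a * (b * c) → 1 ≤ a ∧ 1 ≤ b ∧ 1 ≤ c := by
    intro a b c ha hb hc ha1 hb1 hc1 h
    have h2 : a * (b * c) ≤ a := by
      calc a * (b * c) ≤ a * 1 := mul_le_mul_of_nonneg_left (by nlinarith) ha
        _ = a := mul_one a
    have h3 : a * (b * c) ≤ b := by
      have : b * c ≤ b := by nlinarith
      nlinarith
    have h4 : a * (b * c) ≤ c := by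
      have : b * c ≤ c := by nlinarith
      nlinarith
    exact ⟨by linarith, by linarith, by linarith⟩
  obtain ⟨g0, g1, g2⟩ := hbig _ _ _ (dot_self_nonneg _) (dot_self_nonneg _) (dot_self_nonneg _)
    (hle 0) (hle 1) (hle 2) hprod
  have hs : ∀ i : Fin 3, ∃ s : ℝ, (s = 1 ∨ s = -1) ∧ cofv J (ee i) = s • ee i := by
    intro i
    have hg : 1 ≤ cofv J (ee i) ⬝ᵥ cofv J (ee i) := by
      fin_cases i
      · exact g0
      · exact g1
      · exact g2
    rcases hi i with h | h | h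
    · exact ⟨1, Or.inl rfl, by rw [one_smul]; exact h⟩
    · exact ⟨-1, Or.inr rfl, by rw [neg_smul, one_smul]; exact h⟩
    · have := hq i h
      linarith
  obtain ⟨s0, hs0, e0⟩ := hs 0
  obtain ⟨s1, hs1, e1⟩ := hs 1
  obtain ⟨s2, hs2, e2⟩ := hs 2
  have hsss : s0 * s1 * s2 = 1 := by
    rw [e0, e1, e2, tp_eq] at htp
    simp [ee] at htp
    linarith
  -- the diagonal
  set d : E := ee 0 + ee 1 + ee 2 with hdd
  have hNd : cofv J d = s0 • ee 0 + s1 • ee 1 + s2 • ee 2 := by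
    rw [hdd, cofv_add, cofv_add, e0, e1, e2]
  have hdn : d ⬝ᵥ d = 3 := by
    rw [dot3, hdd]
    simp [ee]
    norm_num
  have hsq : ∀ s : ℝ, (s = 1 ∨ s = -1) → s * s = 1 := by
    intro s hs
    rcases hs with rfl | rfl <;> norm_num
  have hNN : cofv J d ⬝ᵥ cofv J d = 3 := by
    rw [hNd, dot3]
    simp [ee]
    rw [hsq s0 hs0, hsq s1 hs1, hsq s2 hs2]
    norm_num
  have hnd : 0 < nn d := by
    unfold nn
    rw [hdn]
    positivity
  have hndsq : nn d ^ 2 = 3 := by rw [nn_sq, hdn]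
  have h3 := alt J h6 _ (hd d (Or.inr (Or.inr (Or.inr rfl))))
  rw [cofv_smul] at h3
  have h4 : cofv J d = d ∨ cofv J d = -d := by
    rcases h3 with h | h | h
    · left
      exact smul_right_injective E (inv_ne_zero hnd.ne') h
    · right
      rw [← smul_neg] at h
      exact smul_right_injective E (inv_ne_zero hnd.ne') h
    · exfalso
      have h5 : nn ((nn d)⁻¹ • cofv J d) ^ 2 = 1 := by
        rw [nn_sq, smul_dotProduct, dotProduct_smul, hNN, smul_eq_mul, smul_eq_mul]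
        field_simp
        linarith
      have h7 := nn_nonneg ((nn d)⁻¹ • cofv J d)
      nlinarith
  have h5 : s0 = 1 ∧ s1 = 1 ∧ s2 = 1 := by
    rcases h4 with h | h
    · rw [hNd, hdd] at h
      have a0 := congrFun h 0
      have a1 := congrFun h 1
      have a2 := congrFun h 2
      simp [ee] at a0 a1 a2
      exact ⟨a0, a1, a2⟩
    · rw [hNd, hdd] at h
      have a0 := congrFun h 0
      have a1 := congrFun h 1
      have a2 := congrFun h 2
      simp [ee] at a0 a1 a2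
      rw [a0, a1, a2] at hsss
      norm_num at hsss
  obtain ⟨b0, b1, b2⟩ := h5
  have hN : ∀ i : Fin 3, cofv J (ee i) = ee i := by
    intro i
    fin_cases i
    · change cofv J (ee 0) = ee 0
      rw [e0, b0, one_smul]
    · change cofv J (ee 1) = ee 1
      rw [e1, b1, one_smul]
    · change cofv J (ee 2) = ee 2
      rw [e2, b2, one_smul]
  refine ContinuousLinearMap.ext fun Y => ?_
  funext i
  have h8 := h1 (ee i) Y
  rw [hN i] at h8
  have h9 : ∀ z : E, ee i ⬝ᵥ z = z i := by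
    intro z
    unfold ee
    rw [single_one_dotProduct]
  rw [h9, h9] at h8
  rw [h8]
  rfl

end Pool.Agent.Helper96.Torus
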